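import Pool.Agent.V7H9.ML.Bound
import Pool.Agent.Helper425_zc.Comp

/-!
# The algorithm
-/

set_option autoImplicit false

namespace Pool.Agent.V7H9.ML

open Polynomial

/-- The polynomial with the given list of coefficients, `l_0 + l_1 X + l_2 X ^ 2 + …`. -/
noncomputable def poly (l : List ℤ) : ℤ[X] := ∑ i ∈ Finset.range l.length, monomial i (l.getD i 0)

theorem poly_coeff (l : List ℤ) (i : ℕ) : (poly l).coeff i = l.getD i 0 := by
  simp only [poly, finsetSum_coeff, coeff_monomial]
  by_cases hi : i < l.length
  · rw [Finset.sum_eq_single i]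
    · simp
    · intro b _ hb
      rw [if_neg hb]
    · intro hi2
      exact absurd (Finset.mem_range.2 hi) hi2
  · rw [List.getD_eq_default _ _ (by omega)]
    refine Finset.sum_eq_zero fun j hj => ?_
    rw [if_neg]
    rw [Finset.mem_range] at hj
    omega

/-- the sum of the absolute values -/
def listLen (l : List ℤ) : ℕ := l.foldr (fun a s => a.natAbs + s) 0

theorem listLen_eq (l : List ℤ) : listLen l = ∑ i ∈ Finset.range l.length, (l.getD i 0).natAbs := by
  induction l with
  | nil => rfl
  | cons a l ih =>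
    rw [List.length_cons, Finset.sum_range_succ']
    show a.natAbs + listLen l = _
    rw [ih]
    simp [add_comm]

theorem poly_natDegree_lt (l : List ℤ) (h : l ≠ []) : (poly l).natDegree < l.length := by
  have h1 : 0 < l.length := List.length_pos_iff.2 h
  have h2 : (poly l).natDegree ≤ l.length - 1 := by
    rw [natDegree_le_iff_coeff_eq_zero]
    intro i hi
    rw [poly_coeff, List.getD_eq_default _ _ (by omega)]
  omega

theorem len_poly (l : List ℤ) : len (poly l) = listLen l := by
  by_cases h : l = []
  · subst h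
    simp [poly, len, listLen]
  · rw [len_eq _ _ (poly_natDegree_lt l h), listLen_eq]
    exact Finset.sum_congr rfl fun i _ => by rw [poly_coeff]

/-- the coefficient of `X ^ k` in the product -/
def conv (l t : List ℤ) (k : ℕ) : ℤ :=
  (List.range (k + 1)).foldr (fun i s => l.getD i 0 * t.getD (k - i) 0 + s) 0

theorem foldr_sum (f : ℕ → ℤ) (n : ℕ) :
    (List.range n).foldr (fun i s => f i + s) 0 = ∑ i ∈ Finset.range n, f i := by
  have h : ∀ (l : List ℕ), l.foldr (fun i s => f i + s) 0 = (l.map f).sum := by
    intro l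
    induction l with
    | nil => rfl
    | cons a l ih => simp [ih]
  rw [h]
  exact (Multiset.sum_coe _).symm

/-- the product of the polynomials -/
def mulList (l t : List ℤ) : List ℤ := (List.range (l.length + t.length)).map (conv l t)


theorem conv_eq (l t : List ℤ) (k : ℕ) : conv l t k = (poly l * poly t).coeff k := by
  rw [conv, foldr_sum, coeff_mul, Finset.Nat.sum_antidiagonal_eq_sum_range_succ
    (fun a b => (poly l).coeff a * (poly t).coeff b)]
  exact Finset.sum_congr rfl fun i _ => by rw [poly_coeff, poly_coeff]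

theorem poly_mulList (l t : List ℤ) : poly (mulList l t) = poly l * poly t := by
  ext k
  rw [poly_coeff, mulList]
  by_cases hk : k < l.length + t.length
  · rw [List.getD_eq_getElem _ _ (by simpa using hk)]
    simp only [List.getElem_map, List.getElem_range]
    exact conv_eq l t k
  · rw [List.getD_eq_default _ _ (by simpa using hk)]
    rw [← conv_eq, conv, foldr_sum]
    symm
    refine Finset.sum_eq_zero fun i _ => ?_
    by_cases hi : i < l.length
    · rw [List.getD_eq_default t _ (by omega), mul_zero]
    · rw [List.getD_eq_default l _ (by omega), zero_mul]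

/-- all lists of length `n` of integers with code less than `c` -/
def lists (c : ℕ) : ℕ → List (List ℤ)
  | 0 => [[]]
  | n + 1 => (lists c n).flatMap fun t =>
      (List.range c).map fun k => (Denumerable.ofNat ℤ k) :: t

theorem mem_lists (c : ℕ) : ∀ (n : ℕ) (t : List ℤ), t.length = n → (∀ a ∈ t, Encodable.encode a < c) →
    t ∈ lists c n := by
  intro n
  induction n with
  | zero =>
    intro t ht _
    rw [List.length_eq_zero_iff] at ht
    rw [ht, lists]
    exact List.mem_singleton.2 rfl
  | succ n ih =>
    intro t ht h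
    obtain ⟨a, t, rfl⟩ : ∃ a t', t = a :: t' := by
      cases t with
      | nil => simp at ht
      | cons a t => exact ⟨a, t, rfl⟩
    rw [lists, List.mem_flatMap]
    refine ⟨t, ih t (by simpa using ht) fun b hb => h b (List.mem_cons_of_mem _ hb), ?_⟩
    rw [List.mem_map]
    refine ⟨Encodable.encode a, List.mem_range.2 (h a List.mem_cons_self), ?_⟩
    rw [Denumerable.ofNat_encode]

theorem encode_lt (a : ℤ) (M : ℕ) (h : a.natAbs ≤ M) : Encodable.encode a < 2 * M + 1 := by
  cases a with
  | ofNat n =>
    have h1 : Encodable.encode (Int.ofNat n) = 2 * n := rfl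
    rw [h1]
    simp at h
    omega
  | negSucc n =>
    have h1 : Encodable.encode (Int.negSucc n) = 2 * n + 1 := rfl
    rw [h1]
    simp at h
    omega

/-- one step of the search: is `t` better than `b`? -/
def better (l b t : List ℤ) : List ℤ :=
  if listLen t ≠ 0 ∧ listLen (mulList l t) < listLen (mulList l b) then t else b

/-- the result of the search -/
def best (l : List ℤ) (ts : List (List ℤ)) : List ℤ := ts.foldl (better l) [1]

theorem best_aux (l : List ℤ) : ∀ (ts : List (List ℤ)) (b : List ℤ), listLen b ≠ 0 →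
    listLen (ts.foldl (better l) b) ≠ 0 ∧
    listLen (mulList l (ts.foldl (better l) b)) ≤ listLen (mulList l b) ∧
    ∀ t ∈ ts, listLen t ≠ 0 → listLen (mulList l (ts.foldl (better l) b)) ≤ listLen (mulList l t) := by
  intro ts
  induction ts with
  | nil =>
    intro b hb
    exact ⟨hb, le_rfl, by simp⟩
  | cons t ts ih =>
    intro b hb
    rw [List.foldl_cons]
    have hb' : listLen (better l b t) ≠ 0 := by
      rw [better]
      split_ifs with h
      · exact h.1
      · exact hb
    have h1 : listLen (mulList l (better l b t)) ≤ listLen (mulList l b) := by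
      rw [better]
      split_ifs with h
      · exact h.2.le
      · exact le_rfl
    have h2 : listLen t ≠ 0 → listLen (mulList l (better l b t)) ≤ listLen (mulList l t) := by
      intro ht
      rw [better]
      split_ifs with h
      · exact le_rfl
      · by_contra hcon
        push Not at hcon
        exact h ⟨ht, hcon⟩
    obtain ⟨h3, h4, h5⟩ := ih (better l b t) hb'
    refine ⟨h3, h4.trans h1, fun s hs hs0 => ?_⟩
    rcases List.mem_cons.1 hs with rfl | hs
    · exact h4.trans (h2 hs0)
    · exact h5 s hs hs0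

/-- the parameters -/
def bound (l : List ℤ) : ℕ := bnd l.length (listLen l) (listLen l)

/-- **The algorithm.** -/
def algo (l : List ℤ) : List ℤ :=
  mulList l (best l (lists (2 * (1 + listLen l) ^ (bound l + 1) + 1) (bound l + 1)))

theorem poly_ne_zero_iff (t : List ℤ) : poly t ≠ 0 ↔ listLen t ≠ 0 := by
  rw [← len_poly]
  constructor
  · intro h
    exact (len_pos _ h).ne'
  · rintro h h0
    rw [h0] at h
    simp [len] at h

theorem algo_spec (l : List ℤ) (hirr : Irreducible (poly l)) (hd : 1 ≤ (poly l).natDegree)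
    (hlc : ¬ IsUnit (poly l).leadingCoeff) :
    ∃ T : ℤ[X], poly (algo l) = poly l * T ∧ T ≠ 0 ∧ ∀ T' : ℤ[X], T' ≠ 0 →
      len (poly l * T) ≤ len (poly l * T') := by
  obtain ⟨L, hL⟩ : ∃ L, L = lists (2 * (1 + listLen l) ^ (bound l + 1) + 1) (bound l + 1) := ⟨_, rfl⟩
  have h1 : listLen [1] ≠ 0 := by decide
  obtain ⟨h2, -, h4⟩ := best_aux l L [1] h1
  have hne : l ≠ [] := by
    rintro rfl
    simp [poly] at hd
  obtain ⟨T, hT0, hTd, hTc, hTmin⟩ := exists_small (poly l) hirr hd hlc l.length (listLen l)
    (poly_natDegree_lt l hne).le (len_poly l).le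
  refine ⟨poly (best l L), ?_, ?_, fun T' hT' => ?_⟩
  · rw [algo, poly_mulList, ← hL]
  · rw [poly_ne_zero_iff]
    exact h2
  · -- the list of the cofactor
    obtain ⟨t, ht⟩ : ∃ t, t = (List.range (bound l + 1)).map fun i => T.coeff i := ⟨_, rfl⟩
    have htl : t.length = bound l + 1 := by rw [ht]; simp
    have hpt : poly t = T := by
      ext k
      rw [poly_coeff]
      by_cases hk : k < bound l + 1
      · rw [List.getD_eq_getElem _ _ (by rw [htl]; exact hk)]
        simp [ht]
      · rw [List.getD_eq_default _ _ (by rw [htl]; omega)]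
        refine (coeff_eq_zero_of_natDegree_lt ?_).symm
        have : (bound l) = bnd l.length (listLen l) (listLen l) := rfl
        omega
    have hmem : t ∈ L := by
      rw [hL]
      refine mem_lists _ _ t htl fun a ha => ?_
      rw [ht, List.mem_map] at ha
      obtain ⟨i, hi, rfl⟩ := ha
      rw [List.mem_range] at hi
      exact encode_lt _ _ (hTc i (by have : (bound l) = bnd l.length (listLen l) (listLen l) := rfl; omega))
    have ht0 : listLen t ≠ 0 := by
      rw [← poly_ne_zero_iff, hpt]
      exact hT0
    have h5 := h4 t hmem ht0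
    rw [← len_poly, ← len_poly, poly_mulList, poly_mulList, hpt] at h5
    exact h5.trans (hTmin T' hT')

/-! ### Computability -/

open Pool.Agent.Helper425_zc

theorem prim_listLen : Primrec listLen := by
  refine Primrec.list_foldr (h := fun (_ : List ℤ) (p : ℤ × ℕ) => p.1.natAbs + p.2) Primrec.id (Primrec.const 0) ?_
  exact Primrec.nat_add.comp (prim_natAbs.comp (Primrec.fst.comp Primrec.snd)) (Primrec.snd.comp Primrec.snd)

theorem prim_conv : Primrec fun p : (List ℤ × List ℤ) × ℕ => conv p.1.1 p.1.2 p.2 := by
  refine Primrec.list_foldr (f := fun p : (List ℤ × List ℤ) × ℕ => List.range (p.2 + 1)) (g := fun _ => (0 : ℤ))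
    (h := fun p q => p.1.1.getD q.1 0 * p.1.2.getD (p.2 - q.1) 0 + q.2) ?_ (Primrec.const 0) ?_
  · exact Primrec.list_range.comp (Primrec.succ.comp Primrec.snd)
  · have a1 : Primrec fun r : ((List ℤ × List ℤ) × ℕ) × (ℕ × ℤ) => r.1.1.1 :=
      Primrec.fst.comp (Primrec.fst.comp Primrec.fst)
    have a2 : Primrec fun r : ((List ℤ × List ℤ) × ℕ) × (ℕ × ℤ) => r.1.1.2 :=
      Primrec.snd.comp (Primrec.fst.comp Primrec.fst)
    have a3 : Primrec fun r : ((List ℤ × List ℤ) × ℕ) × (ℕ × ℤ) => r.1.2 := Primrec.snd.comp Primrec.fst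
    have a4 : Primrec fun r : ((List ℤ × List ℤ) × ℕ) × (ℕ × ℤ) => r.2.1 := Primrec.fst.comp Primrec.snd
    have a5 : Primrec fun r : ((List ℤ × List ℤ) × ℕ) × (ℕ × ℤ) => r.2.2 := Primrec.snd.comp Primrec.snd
    exact padd (pmul ((Primrec.list_getD 0).comp a1 a4)
      ((Primrec.list_getD 0).comp a2 (Primrec.nat_sub.comp a3 a4))) a5

theorem prim_mulList : Primrec₂ mulList := by
  refine Primrec.list_map (f := fun p : List ℤ × List ℤ => List.range (p.1.length + p.2.length))
    (g := fun p k => conv p.1 p.2 k) ?_ prim_conv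
  exact Primrec.list_range.comp (Primrec.nat_add.comp (Primrec.list_length.comp Primrec.fst)
    (Primrec.list_length.comp Primrec.snd))

theorem prim_pow : Primrec₂ fun a b : ℕ => a ^ b :=
  Primrec₂.unpaired'.1 Nat.Primrec.pow

theorem prim_bnd : Primrec fun p : (ℕ × ℕ) × ℕ => bnd p.1.1 p.1.2 p.2 := by
  have h : Primrec₂ fun (p : ℕ × ℕ) (j : ℕ) => bnd p.1 p.2 j := by
    refine (Primrec.nat_rec (f := fun _ : ℕ × ℕ => 0)
      (g := fun p q => q.2 + 1 + p.1 + p.1 * ((p.1 + q.2) * (p.1 + q.2 + p.2) + 1))
      (Primrec.const 0) ?_).of_eq fun p j => ?_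
    · have a1 : Primrec fun r : (ℕ × ℕ) × (ℕ × ℕ) => r.1.1 := Primrec.fst.comp Primrec.fst
      have a2 : Primrec fun r : (ℕ × ℕ) × (ℕ × ℕ) => r.1.2 := Primrec.snd.comp Primrec.fst
      have a3 : Primrec fun r : (ℕ × ℕ) × (ℕ × ℕ) => r.2.2 := Primrec.snd.comp Primrec.snd
      have a4 : Primrec fun r : (ℕ × ℕ) × (ℕ × ℕ) => r.1.1 + r.2.2 := Primrec.nat_add.comp a1 a3
      exact Primrec.nat_add.comp (Primrec.nat_add.comp (Primrec.succ.comp a3) a1)
        (Primrec.nat_mul.comp a1 (Primrec.succ.comp (Primrec.nat_mul.comp a4 (Primrec.nat_add.comp a4 a2))))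
    · induction j with
      | zero => rfl
      | succ j ih =>
        rw [bnd, ← ih]
  exact h

theorem prim_bound : Primrec bound :=
  prim_bnd.comp (Primrec.pair (Primrec.pair Primrec.list_length prim_listLen) prim_listLen)

theorem prim_lists : Primrec₂ lists := by
  refine (Primrec.nat_rec (f := fun _ : ℕ => [([] : List ℤ)])
    (g := fun c q => q.2.flatMap fun t => (List.range c).map fun k => (Denumerable.ofNat ℤ k) :: t)
    (Primrec.const _) ?_).of_eq fun c n => ?_
  · refine Primrec.list_flatMap (f := fun r : ℕ × (ℕ × List (List ℤ)) => r.2.2)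
      (g := fun r t => (List.range r.1).map fun k => (Denumerable.ofNat ℤ k) :: t)
      (Primrec.snd.comp Primrec.snd) ?_
    refine Primrec.list_map (f := fun r : (ℕ × (ℕ × List (List ℤ))) × List ℤ => List.range r.1.1)
      (g := fun r k => (Denumerable.ofNat ℤ k) :: r.2)
      (Primrec.list_range.comp (Primrec.fst.comp Primrec.fst)) ?_
    exact Primrec.list_cons.comp ((Primrec.ofNat ℤ).comp Primrec.snd) (Primrec.snd.comp Primrec.fst)
  · induction n with
    | zero => rfl
    | succ n ih =>
      rw [lists, ← ih]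

theorem prim_better : Primrec fun p : List ℤ × (List ℤ × List ℤ) => better p.1 p.2.1 p.2.2 := by
  have a1 : Primrec fun p : List ℤ × (List ℤ × List ℤ) => p.1 := Primrec.fst
  have a2 : Primrec fun p : List ℤ × (List ℤ × List ℤ) => p.2.1 := Primrec.fst.comp Primrec.snd
  have a3 : Primrec fun p : List ℤ × (List ℤ × List ℤ) => p.2.2 := Primrec.snd.comp Primrec.snd
  refine Primrec.ite (PrimrecPred.and ?_ ?_) a3 a2
  · exact PrimrecPred.not (Primrec.eq.comp (prim_listLen.comp a3) (Primrec.const 0))
  · exact Primrec.nat_lt.comp (prim_listLen.comp (prim_mulList.comp a1 a3))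
      (prim_listLen.comp (prim_mulList.comp a1 a2))

theorem prim_best : Primrec₂ best := by
  refine Primrec.list_foldl (f := fun p : List ℤ × List (List ℤ) => p.2) (g := fun _ => [(1 : ℤ)])
    (h := fun p q => better p.1 q.1 q.2) Primrec.snd (Primrec.const _) ?_
  exact prim_better.comp (Primrec.pair (Primrec.fst.comp Primrec.fst)
    (Primrec.pair (Primrec.fst.comp Primrec.snd) (Primrec.snd.comp Primrec.snd)))

theorem prim_algo : Primrec algo := by
  refine prim_mulList.comp Primrec.id (prim_best.comp Primrec.id (prim_lists.comp ?_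
    (Primrec.succ.comp prim_bound)))
  exact Primrec.succ.comp (Primrec.nat_mul.comp (Primrec.const 2)
    (prim_pow.comp (Primrec.nat_add.comp (Primrec.const 1) prim_listLen) (Primrec.succ.comp prim_bound)))

end Pool.Agent.V7H9.ML
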