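import Pool.Agent.V7H9.ML.Gap

/-!
# Multiples of minimum length: bound for the degree and the coefficients of the cofactor
-/

set_option autoImplicit false

namespace Pool.Agent.V7H9.ML

open Polynomial

/-- The length of an integral polynomial: the sum of the absolute values of its coefficients. -/
noncomputable def len (F : ℤ[X]) : ℕ := ∑ i ∈ F.support, (F.coeff i).natAbs

theorem len_eq (F : ℤ[X]) (n : ℕ) (h : F.natDegree < n) :
    len F = ∑ i ∈ Finset.range n, (F.coeff i).natAbs := by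
  refine Finset.sum_subset (fun i hi => ?_) fun i _ hi => ?_
  · exact Finset.mem_range.2 ((le_natDegree_of_mem_supp i hi).trans_lt h)
  · rw [notMem_support_iff.1 hi, Int.natAbs_zero]

theorem coeff_le_len (F : ℤ[X]) (i : ℕ) : (F.coeff i).natAbs ≤ len F := by
  by_cases hi : i ∈ F.support
  · exact Finset.single_le_sum (f := fun i => (F.coeff i).natAbs) (fun _ _ => Nat.zero_le _) hi
  · rw [notMem_support_iff.1 hi, Int.natAbs_zero]
    exact Nat.zero_le _

theorem card_support_le_len (F : ℤ[X]) : F.support.card ≤ len F := by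
  rw [Finset.card_eq_sum_ones]
  refine Finset.sum_le_sum fun i hi => ?_
  exact Int.natAbs_pos.2 (mem_support_iff.1 hi)

theorem len_pos (F : ℤ[X]) (h : F ≠ 0) : 0 < len F :=
  lt_of_lt_of_le (Finset.card_pos.2 (nonempty_support_iff.2 h)) (card_support_le_len F)

/-- the bounds for the windows -/
def bnd (D ℓ : ℕ) : ℕ → ℕ
  | 0 => 0
  | j + 1 => bnd D ℓ j + 1 + D + D * ((D + bnd D ℓ j) * (D + bnd D ℓ j + ℓ) + 1)

theorem bnd_le_succ (D ℓ j : ℕ) : bnd D ℓ j ≤ bnd D ℓ (j + 1) := by
  rw [bnd]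
  omega

/-- the polynomial with the coefficients `F_k, …, F_(k + b)` -/
noncomputable def part (F : ℤ[X]) (k b : ℕ) : ℤ[X] :=
  ∑ i ∈ Finset.range b, monomial i (F.coeff (k + i))

theorem part_coeff (F : ℤ[X]) (k b i : ℕ) : (part F k b).coeff i = if i < b then F.coeff (k + i) else 0 := by
  simp only [part, finsetSum_coeff, coeff_monomial]
  split_ifs with hi
  · rw [Finset.sum_eq_single i]
    · simp
    · intro c _ hc
      rw [if_neg hc]
    · intro hi2
      exact absurd (Finset.mem_range.2 hi) hi2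
  · refine Finset.sum_eq_zero fun j hj => ?_
    rw [if_neg]
    rw [Finset.mem_range] at hj
    omega

theorem part_natDegree (F : ℤ[X]) (k b : ℕ) : (part F k (b + 1)).natDegree ≤ b := by
  rw [natDegree_le_iff_coeff_eq_zero]
  intro i hi
  rw [part_coeff, if_neg (by omega)]

theorem part_split (F : ℤ[X]) (k b : ℕ) (h : F.natDegree ≤ k + b) :
    F = part F 0 k + X ^ k * part F k (b + 1) := by
  ext i
  rw [coeff_add, coeff_X_pow_mul', part_coeff, part_coeff, zero_add]
  by_cases h1 : i < k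
  · rw [if_pos h1, if_neg (by omega), add_zero]
  · rw [if_neg h1, if_pos (by omega), zero_add]
    split_ifs with h2
    · congr 1
      omega
    · exact coeff_eq_zero_of_natDegree_lt (by omega)

theorem part_len (F : ℤ[X]) (k b : ℕ) (h : F.natDegree ≤ k + b) :
    len F = len (part F 0 k) + len (part F k (b + 1)) := by
  rw [len_eq F (k + (b + 1)) (by omega), len_eq (part F k (b + 1)) (b + 1)
    (Nat.lt_succ_of_le (part_natDegree F k b)), Finset.sum_range_add]
  congr 1
  · rcases Nat.eq_zero_or_pos k with hk | hk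
    · subst hk
      have : part F 0 0 = 0 := by simp [part]
      rw [this]
      simp [len]
    · obtain ⟨k', rfl⟩ : ∃ k', k = k' + 1 := ⟨k - 1, by omega⟩
      rw [len_eq (part F 0 (k' + 1)) (k' + 1) (Nat.lt_succ_of_le (part_natDegree F 0 k'))]
      refine Finset.sum_congr rfl fun i hi => ?_
      rw [part_coeff, if_pos (Finset.mem_range.1 hi), zero_add]
  · refine Finset.sum_congr rfl fun i hi => ?_
    rw [part_coeff, if_pos (Finset.mem_range.1 hi)]

/-- **The degree of a minimum-length multiple.** -/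
theorem natDegree_le (P : ℤ[X]) (hirr : Irreducible P) (hd : 1 ≤ P.natDegree)
    (hlc : ¬ IsUnit P.leadingCoeff) (D ℓ : ℕ) (hD : P.natDegree ≤ D) (hPl : len P ≤ ℓ)
    (F : ℤ[X]) (hF0 : F.coeff 0 ≠ 0) (hFl : len F ≤ ℓ) (hdvd : P ∣ F)
    (hmin : ∀ F' : ℤ[X], F' ≠ 0 → P ∣ F' → len F ≤ len F') : F.natDegree ≤ bnd D ℓ ℓ := by
  classical
  obtain ⟨n, hn⟩ : ∃ n, n = F.natDegree := ⟨_, rfl⟩
  have hF : F ≠ 0 := by
    rintro rfl
    simp at hF0
  have key : ∀ j, n ≤ bnd D ℓ j ∨ j + 1 ≤ (F.support.filter fun i => n ≤ i + bnd D ℓ j).card := by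
    intro j
    induction j with
    | zero =>
      right
      rw [zero_add, Nat.succ_le_iff, Finset.card_pos]
      refine ⟨n, ?_⟩
      rw [Finset.mem_filter]
      exact ⟨by rw [hn]; exact natDegree_mem_support_of_nonzero hF, by omega⟩
    | succ j ih =>
      rcases ih with ih | ih
      · exact Or.inl (ih.trans (bnd_le_succ D ℓ j))
      by_contra hcon
      push Not at hcon
      obtain ⟨hcon1, hcon2⟩ := hcon
      have hle := bnd_le_succ D ℓ j
      -- the window contains no further coefficient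
      have hsub : (F.support.filter fun i => n ≤ i + bnd D ℓ j) ⊆
          F.support.filter fun i => n ≤ i + bnd D ℓ (j + 1) := by
        intro i hi
        rw [Finset.mem_filter] at hi ⊢
        exact ⟨hi.1, by omega⟩
      have heq := Finset.eq_of_subset_of_card_le hsub (by omega)
      have hgap : ∀ i, n ≤ i + bnd D ℓ (j + 1) → i + bnd D ℓ j < n → F.coeff i = 0 := by
        intro i h1 h2
        by_contra h3
        have : i ∈ F.support.filter fun i => n ≤ i + bnd D ℓ (j + 1) :=
          Finset.mem_filter.2 ⟨mem_support_iff.2 h3, h1⟩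
        rw [← heq, Finset.mem_filter] at this
        omega
      obtain ⟨b, hb⟩ : ∃ b, b = bnd D ℓ j := ⟨_, rfl⟩
      obtain ⟨k, hk⟩ : ∃ k, n = k + b := ⟨n - b, by omega⟩
      have hk0 : 0 < k := by omega
      obtain ⟨g, hg⟩ : ∃ g, n = g + 1 + bnd D ℓ (j + 1) := ⟨n - 1 - bnd D ℓ (j + 1), by omega⟩
      have hsplit := part_split F k b (by omega)
      have hlen := part_len F k b (by omega)
      have hGd : (part F 0 k).natDegree ≤ g := by
        rw [natDegree_le_iff_coeff_eq_zero]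
        intro i hi
        rw [part_coeff, zero_add]
        split_ifs with h1
        · exact hgap i (by omega) (by omega)
        · rfl
      have hG0 : part F 0 k ≠ 0 := by
        intro h0
        have := congrArg (fun q => q.coeff 0) h0
        rw [part_coeff, if_pos hk0, zero_add, coeff_zero] at this
        exact hF0 this
      have hH0 : part F k (b + 1) ≠ 0 := by
        intro h0
        have := congrArg (fun q => q.coeff b) h0
        rw [part_coeff, if_pos (by omega), coeff_zero, ← hk, hn] at this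
        exact hF (leadingCoeff_eq_zero.1 this)
      have hPH : P ∣ part F k (b + 1) := by
        refine gap P hirr hd hlc (part F 0 k) (part F k (b + 1)) ℓ (D + b) g k
          (fun i => (coeff_le_len P i).trans hPl) (fun i => ?_) ?_ hGd (by rw [← hsplit]; exact hdvd) ?_
        · rw [part_coeff]
          split_ifs
          · exact (coeff_le_len F _).trans hFl
          · simp
        · have := part_natDegree F k b
          omega
        · have h1 : bnd D ℓ (j + 1) = b + 1 + D + D * ((D + b) * (D + b + ℓ) + 1) := by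
            rw [bnd, hb]
          have h2 : P.natDegree * ((D + b) * (D + b + ℓ) + 1) ≤ D * ((D + b) * (D + b + ℓ) + 1) :=
            Nat.mul_le_mul_right _ hD
          omega
      have h3 := hmin _ hH0 hPH
      have h4 := len_pos _ hG0
      omega
  rcases key ℓ with h | h
  · rw [← hn]; exact h
  · have h1 := Finset.card_filter_le F.support fun i => n ≤ i + bnd D ℓ ℓ
    have h2 := card_support_le_len F
    omega

/-- the coefficients of the cofactor -/
theorem cofactor_le (P T F : ℤ[X]) (hP0 : P.coeff 0 ≠ 0) (ℓ : ℕ) (hPl : len P ≤ ℓ) (hFl : len F ≤ ℓ)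
    (hF : F = P * T) (i : ℕ) : (T.coeff i).natAbs + 1 ≤ (1 + ℓ) ^ (i + 1) := by
  induction i using Nat.strong_induction_on with
  | _ i ih =>
    have h1 : F.coeff i = P.coeff 0 * T.coeff i +
        ∑ j ∈ Finset.range i, P.coeff (j + 1) * T.coeff (i - 1 - j) := by
      rw [hF, coeff_mul, Finset.Nat.sum_antidiagonal_eq_sum_range_succ (fun a b => P.coeff a * T.coeff b),
        Finset.sum_range_succ', add_comm, Nat.sub_zero]
      congr 1
      refine Finset.sum_congr rfl fun j _ => ?_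
      congr 2
      omega
    have h2 : (T.coeff i).natAbs ≤ (P.coeff 0 * T.coeff i).natAbs := by
      rw [Int.natAbs_mul]
      exact Nat.le_mul_of_pos_left _ (Int.natAbs_pos.2 hP0)
    have h3 : P.coeff 0 * T.coeff i = F.coeff i - ∑ j ∈ Finset.range i, P.coeff (j + 1) * T.coeff (i - 1 - j) := by
      rw [h1]; ring
    have h4 : (P.coeff 0 * T.coeff i).natAbs ≤ ℓ +
        ∑ j ∈ Finset.range i, (P.coeff (j + 1)).natAbs * (T.coeff (i - 1 - j)).natAbs := by
      rw [h3]
      refine (Int.natAbs_sub_le _ _).trans (Nat.add_le_add ((coeff_le_len F i).trans hFl) ?_)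
      refine (Int.natAbs_sum_le _ _).trans (Finset.sum_le_sum fun j _ => ?_)
      rw [Int.natAbs_mul]
    have h5 : ∑ j ∈ Finset.range i, (P.coeff (j + 1)).natAbs * (T.coeff (i - 1 - j)).natAbs ≤
        ∑ j ∈ Finset.range i, (P.coeff (j + 1)).natAbs * ((1 + ℓ) ^ i - 1) := by
      refine Finset.sum_le_sum fun j hj => Nat.mul_le_mul_left _ ?_
      rw [Finset.mem_range] at hj
      have h6 := ih (i - 1 - j) (by omega)
      have h7 : (1 + ℓ) ^ (i - 1 - j + 1) ≤ (1 + ℓ) ^ i := Nat.pow_le_pow_right (by omega) (by omega)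
      omega
    have h6 : ∑ j ∈ Finset.range i, (P.coeff (j + 1)).natAbs ≤ ℓ := by
      refine le_trans ?_ hPl
      rw [len_eq P (max (i + 1) (P.natDegree + 1)) (by omega)]
      calc ∑ j ∈ Finset.range i, (P.coeff (j + 1)).natAbs
          ≤ ∑ j ∈ Finset.range (i + 1), (P.coeff j).natAbs := by
            rw [Finset.sum_range_succ']
            exact Nat.le_add_right _ _
        _ ≤ _ := Finset.sum_le_sum_of_subset (Finset.range_subset_range.2 (le_max_left _ _))
    rw [← Finset.sum_mul] at h5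
    have h7 : (∑ j ∈ Finset.range i, (P.coeff (j + 1)).natAbs) * ((1 + ℓ) ^ i - 1) ≤ ℓ * ((1 + ℓ) ^ i - 1) :=
      Nat.mul_le_mul_right _ h6
    have h8 : 1 ≤ (1 + ℓ) ^ i := Nat.one_le_pow _ _ (by omega)
    have h9 : ℓ + ℓ * ((1 + ℓ) ^ i - 1) = ℓ * (1 + ℓ) ^ i := by
      obtain ⟨m, hm⟩ : ∃ m, (1 + ℓ) ^ i = m + 1 := ⟨(1 + ℓ) ^ i - 1, by omega⟩
      rw [hm, Nat.add_sub_cancel]
      ring
    have h10 : (1 + ℓ) ^ (i + 1) = (1 + ℓ) ^ i + ℓ * (1 + ℓ) ^ i := by
      rw [pow_succ]; ring
    omega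

/-- There is a minimum-length multiple whose cofactor has bounded degree and coefficients. -/
theorem exists_small (P : ℤ[X]) (hirr : Irreducible P) (hd : 1 ≤ P.natDegree)
    (hlc : ¬ IsUnit P.leadingCoeff) (D ℓ : ℕ) (hD : P.natDegree ≤ D) (hPl : len P ≤ ℓ) :
    ∃ T : ℤ[X], T ≠ 0 ∧ T.natDegree ≤ bnd D ℓ ℓ ∧
      (∀ i ≤ bnd D ℓ ℓ, (T.coeff i).natAbs ≤ (1 + ℓ) ^ (bnd D ℓ ℓ + 1)) ∧
      ∀ T' : ℤ[X], T' ≠ 0 → len (P * T) ≤ len (P * T') := by
  classical
  have hP : P ≠ 0 := hirr.ne_zero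
  have hPX : ¬ P ∣ X := by
    intro h
    obtain ⟨Q, hQ⟩ := h
    have := congrArg leadingCoeff hQ
    rw [leadingCoeff_X, leadingCoeff_mul] at this
    exact hlc (isUnit_of_mul_isUnit_left (by rw [← this]; exact isUnit_one))
  have hP0 : P.coeff 0 ≠ 0 := by
    intro h0
    have h1 : X ∣ P := X_dvd_iff.2 h0
    obtain ⟨Q, hQ⟩ := h1
    rcases hirr.isUnit_or_isUnit hQ with h2 | h2
    · exact not_isUnit_X h2
    · obtain ⟨u, hu⟩ := h2
      apply hPX
      refine ⟨((u⁻¹ : ℤ[X]ˣ) : ℤ[X]), ?_⟩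
      rw [hQ, ← hu, mul_assoc, Units.mul_inv, mul_one]
  -- the minimum
  obtain ⟨m, hm, hmin⟩ : ∃ m, (∃ F : ℤ[X], F ≠ 0 ∧ P ∣ F ∧ len F = m) ∧
      ∀ m' < m, ¬ ∃ F : ℤ[X], F ≠ 0 ∧ P ∣ F ∧ len F = m' := by
    have h : ∃ m, ∃ F : ℤ[X], F ≠ 0 ∧ P ∣ F ∧ len F = m := ⟨_, P, hP, dvd_rfl, rfl⟩
    exact ⟨Nat.find h, Nat.find_spec h, fun m' hm' => Nat.find_min h hm'⟩
  have hmin' : ∀ F' : ℤ[X], F' ≠ 0 → P ∣ F' → m ≤ len F' := by
    intro F' h1 h2
    by_contra hcon
    push Not at hcon
    exact hmin _ hcon ⟨F', h1, h2, rfl⟩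
  obtain ⟨F, hF, hPF, hFm⟩ := hm
  -- without factor `X`
  obtain ⟨F1, k, hF1, hF1k⟩ : ∃ (F1 : ℤ[X]) (k : ℕ), F1.coeff 0 ≠ 0 ∧ F = X ^ k * F1 := by
    have hfin : FiniteMultiplicity (X : ℤ[X]) F :=
      FiniteMultiplicity.of_not_isUnit not_isUnit_X hF
    obtain ⟨c, hc, hc'⟩ := hfin.exists_eq_pow_mul_and_not_dvd
    exact ⟨c, _, fun h => hc' (X_dvd_iff.2 h), hc⟩
  have hF10 : F1 ≠ 0 := by
    rintro rfl
    simp at hF1
  have hPF1 : P ∣ F1 := by
    rw [hF1k] at hPF
    rcases hirr.prime.dvd_or_dvd hPF with h | h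
    · exact absurd (hirr.prime.dvd_of_dvd_pow h) hPX
    · exact h
  have hlenF1 : len F1 = m := by
    rw [← hFm, hF1k]
    have h1 : (X ^ k * F1).support = F1.support.map (addRightEmbedding k) := by
      ext i
      rw [mem_support_iff, coeff_X_pow_mul', Finset.mem_map]
      constructor
      · intro h
        split_ifs at h with h2
        · exact ⟨i - k, mem_support_iff.2 h, by simp [h2]⟩
        · exact absurd rfl h
      · rintro ⟨a, ha, rfl⟩
        simp only [addRightEmbedding_apply, Nat.le_add_left, if_true, Nat.add_sub_cancel]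
        exact mem_support_iff.1 ha
    rw [len, len, h1, Finset.sum_map]
    refine Finset.sum_congr rfl fun i _ => ?_
    rw [coeff_X_pow_mul']
    simp
  have hm1 : m ≤ ℓ := (hmin' P hP dvd_rfl).trans hPl
  have hdeg := natDegree_le P hirr hd hlc D ℓ hD hPl F1 hF1 (by omega) hPF1
    (fun F' h1 h2 => by rw [hlenF1]; exact hmin' F' h1 h2)
  obtain ⟨T, hT⟩ := hPF1
  have hT0 : T ≠ 0 := by
    rintro rfl
    rw [mul_zero] at hT
    exact hF10 hT
  refine ⟨T, hT0, ?_, fun i hi => ?_, fun T' hT' => ?_⟩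
  · have := natDegree_mul hP hT0
    rw [← hT] at this
    omega
  · have h1 := cofactor_le P T F1 hP0 ℓ hPl (by omega) hT i
    have h2 : (1 + ℓ) ^ (i + 1) ≤ (1 + ℓ) ^ (bnd D ℓ ℓ + 1) := Nat.pow_le_pow_right (by omega) (by omega)
    omega
  · rw [← hT, hlenF1]
    exact hmin' _ (mul_ne_zero hP hT') (dvd_mul_right _ _)

end Pool.Agent.V7H9.ML
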