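import Mathlib

/-!
# Multiples of small length of a nonmonic irreducible polynomial: large gaps split
-/

set_option autoImplicit false

namespace Pool.Agent.V7H9.ML

open Polynomial

/-- a polynomial which is not zero modulo any prime, with a leading coefficient which is not a unit -/
theorem descent (P : ℤ[X]) (hprim : ∀ p : ℕ, p.Prime → P.map (Int.castRingHom (ZMod p)) ≠ 0)
    (hlc : ¬ IsUnit P.leadingCoeff) :
    ∀ (n : ℕ) (R : ℤ), R ≠ 0 → R.natAbs < 2 ^ n → ∀ (S E : ℤ[X]) (N e : ℕ),
      P * S = X ^ N * C R + E → E.natDegree ≤ e → N ≤ e + P.natDegree * n := by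
  intro n
  induction n with
  | zero =>
    intro R hR h
    rw [pow_zero, Nat.lt_one_iff, Int.natAbs_eq_zero] at h
    exact absurd h hR
  | succ n ih =>
    intro R hR h S E N e heq hE
    by_cases h1 : R.natAbs = 1
    · by_contra hcon
      push Not at hcon
      have hNe : E.natDegree < N := by
        have : 0 ≤ P.natDegree * (n + 1) := Nat.zero_le _
        omega
      have hc : (P * S).coeff N = R := by
        rw [heq, coeff_add, coeff_X_pow_mul', if_pos le_rfl, Nat.sub_self, coeff_C_zero,
          coeff_eq_zero_of_natDegree_lt hNe, add_zero]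
      have hu : IsUnit R := Int.isUnit_iff_natAbs_eq.2 h1
      have hdeg : (P * S).natDegree = N := by
        apply le_antisymm
        · rw [heq]
          refine (natDegree_add_le _ _).trans (max_le ?_ hNe.le)
          exact (natDegree_mul_le).trans (by rw [natDegree_X_pow, natDegree_C, add_zero])
        · exact le_natDegree_of_ne_zero (by rw [hc]; exact hR)
      have hl : (P * S).leadingCoeff = R := by
        rw [leadingCoeff, hdeg, hc]
      rw [leadingCoeff_mul] at hl
      exact hlc (isUnit_of_mul_isUnit_left (by rw [hl]; exact hu))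
    · obtain ⟨p, hp, hpR⟩ := Nat.exists_prime_and_dvd h1
      have : Fact p.Prime := ⟨hp⟩
      obtain ⟨R1, rfl⟩ : (p : ℤ) ∣ R := Int.natCast_dvd.2 hpR
      have hp0 : (p : ℤ) ≠ 0 := by exact_mod_cast hp.ne_zero
      have hR1 : R1 ≠ 0 := right_ne_zero_of_mul hR
      have hlt : R1.natAbs < 2 ^ n := by
        rw [Int.natAbs_mul, Int.natAbs_natCast, pow_succ] at h
        have := hp.two_le
        by_contra hcon
        push Not at hcon
        have h2 : 2 ^ n * 2 ≤ p * R1.natAbs := by
          rw [mul_comm p]
          exact Nat.mul_le_mul hcon this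
        omega
      -- the part of `S` of low degree
      let φ := Int.castRingHom (ZMod p)
      have hSdeg : (S.map φ).natDegree ≤ e := by
        by_cases hS0 : S.map φ = 0
        · rw [hS0, natDegree_zero]
          exact Nat.zero_le _
        · have h2 : P.map φ * S.map φ = E.map φ := by
            rw [← Polynomial.map_mul, heq, Polynomial.map_add, Polynomial.map_mul, map_C]
            have : φ (p * R1) = 0 := by
              rw [map_mul]
              have : φ p = 0 := by simp [φ]
              rw [this, zero_mul]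
            rw [this, C_0, mul_zero, zero_add]
          have h3 := natDegree_mul (hprim p hp) hS0
          change (P.map φ * S.map φ).natDegree = _ at h3
          rw [h2] at h3
          have h4 : (E.map φ).natDegree ≤ e := natDegree_map_le.trans hE
          omega
      let S0 : ℤ[X] := ∑ i ∈ Finset.range (e + 1), monomial i (S.coeff i)
      have hS0c : ∀ i, S0.coeff i = if i ≤ e then S.coeff i else 0 := by
        intro i
        simp only [S0, finsetSum_coeff, coeff_monomial]
        split_ifs with hi
        · rw [Finset.sum_eq_single i]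
          · simp
          · intro b _ hb
            rw [if_neg hb]
          · intro hi2
            exact absurd (Finset.mem_range.2 (by omega)) hi2
        · refine Finset.sum_eq_zero fun j hj => ?_
          rw [if_neg]
          rw [Finset.mem_range] at hj
          omega
      have hS0d : S0.natDegree ≤ e := by
        rw [natDegree_le_iff_coeff_eq_zero]
        intro i hi
        rw [hS0c, if_neg (by omega)]
      obtain ⟨S1, hS1⟩ : C (p : ℤ) ∣ S - S0 := by
        rw [C_dvd_iff_dvd_coeff]
        intro i
        rw [coeff_sub, hS0c]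
        split_ifs with hi
        · rw [sub_self]
          exact dvd_zero _
        · rw [sub_zero]
          have h5 : (S.map φ).coeff i = 0 := coeff_eq_zero_of_natDegree_lt (by omega)
          rw [coeff_map] at h5
          exact (ZMod.intCast_zmod_eq_zero_iff_dvd _ _).1 h5
      obtain ⟨E1, hE1⟩ : C (p : ℤ) ∣ E - P * S0 := by
        refine ⟨P * S1 - X ^ N * C R1, ?_⟩
        have : E = P * S - X ^ N * C (p * R1) := by rw [heq]; ring
        rw [this, C_mul]
        have h6 : S = C (p : ℤ) * S1 + S0 := by rw [← hS1]; ring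
        rw [h6]
        ring
      have hkey : P * S1 = X ^ N * C R1 + E1 := by
        have hC : (C (p : ℤ) : ℤ[X]) ≠ 0 := C_ne_zero.2 hp0
        apply mul_left_cancel₀ hC
        have h6 : P * S = C (p : ℤ) * (P * S1) + P * S0 := by
          have : S = C (p : ℤ) * S1 + S0 := by rw [← hS1]; ring
          rw [this]
          ring
        have h7 : E = C (p : ℤ) * E1 + P * S0 := by rw [← hE1]; ring
        rw [h6, h7, C_mul] at heq
        linear_combination heq
      have hE1d : E1.natDegree ≤ e + P.natDegree := by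
        have h8 : (C (p : ℤ) * E1).natDegree = E1.natDegree := natDegree_C_mul hp0
        rw [← h8, ← hE1]
        refine (natDegree_sub_le _ _).trans (max_le (by omega) ?_)
        exact natDegree_mul_le.trans (by omega)
      have := ih R1 hR1 hlt S1 E1 N _ hkey hE1d
      rw [Nat.mul_succ]
      omega

/-- an upper bound for the resultant -/
theorem resultant_lt (P H : ℤ[X]) (ℓ s : ℕ) (hP : ∀ i, (P.coeff i).natAbs ≤ ℓ)
    (hH : ∀ i, (H.coeff i).natAbs ≤ ℓ) (hs : P.natDegree + H.natDegree ≤ s) :
    (resultant P H).natAbs < 2 ^ (s * (s + ℓ) + 1) := by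
  have h1 : ∀ i j, AbsoluteValue.abs (sylvester P H P.natDegree H.natDegree i j) ≤ (ℓ : ℤ) := by
    intro i j
    have hP' : ∀ i, |P.coeff i| ≤ (ℓ : ℤ) := fun i => by
      rw [Int.abs_eq_natAbs]; exact_mod_cast hP i
    have hH' : ∀ i, |H.coeff i| ≤ (ℓ : ℤ) := fun i => by
      rw [Int.abs_eq_natAbs]; exact_mod_cast hH i
    rw [sylvester, Matrix.of_apply, AbsoluteValue.abs_apply]
    induction j using Fin.addCases with
    | left j =>
      rw [Fin.addCases_left]
      split_ifs
      · exact hH' _
      · simp
    | right j =>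
      rw [Fin.addCases_right]
      split_ifs
      · exact hP' _
      · simp
  have h2 := Matrix.det_le (abv := AbsoluteValue.abs) h1
  rw [Fintype.card_fin] at h2
  obtain ⟨t, ht⟩ : ∃ t, t = P.natDegree + H.natDegree := ⟨_, rfl⟩
  have h3 : (resultant P H).natAbs ≤ t.factorial * ℓ ^ t := by
    zify
    rw [ht]
    simpa [resultant, AbsoluteValue.abs_apply] using h2
  have h4 : t.factorial ≤ 2 ^ (t * t) := by
    calc t.factorial ≤ t ^ t := Nat.factorial_le_pow t
      _ ≤ (2 ^ t) ^ t := Nat.pow_le_pow_left (Nat.lt_two_pow_self).le _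
      _ = 2 ^ (t * t) := by rw [← pow_mul]
  have h5 : ℓ ^ t ≤ 2 ^ (ℓ * t) := by
    calc ℓ ^ t ≤ (2 ^ ℓ) ^ t := Nat.pow_le_pow_left (Nat.lt_two_pow_self).le _
      _ = 2 ^ (ℓ * t) := by rw [← pow_mul]
  calc (resultant P H).natAbs ≤ t.factorial * ℓ ^ t := h3
    _ ≤ 2 ^ (t * t) * 2 ^ (ℓ * t) := Nat.mul_le_mul h4 h5
    _ = 2 ^ (t * t + ℓ * t) := by rw [← pow_add]
    _ < 2 ^ (s * (s + ℓ) + 1) := by
        refine Nat.pow_lt_pow_right (by norm_num) ?_
        have h6 : t ≤ s := ht ▸ hs
        nlinarith [Nat.mul_le_mul h6 h6, Nat.mul_le_mul_left ℓ h6]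

/-- **Gap principle.** -/
theorem gap (P : ℤ[X]) (hirr : Irreducible P) (hd : 1 ≤ P.natDegree) (hlc : ¬ IsUnit P.leadingCoeff)
    (G H : ℤ[X]) (ℓ s g N : ℕ) (hPl : ∀ i, (P.coeff i).natAbs ≤ ℓ)
    (hHl : ∀ i, (H.coeff i).natAbs ≤ ℓ) (hs : P.natDegree + H.natDegree ≤ s) (hG : G.natDegree ≤ g)
    (hdvd : P ∣ G + X ^ N * H) (hN : g + P.natDegree + P.natDegree * (s * (s + ℓ) + 1) < N) : P ∣ H := by
  by_contra hndvd
  have hprimitive : P.IsPrimitive := hirr.isPrimitive (by omega)
  -- coprime over the rational numbers
  have hirrQ : Irreducible (P.map (Int.castRingHom ℚ)) :=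
    (IsPrimitive.Int.irreducible_iff_irreducible_map_cast hprimitive).1 hirr
  have hres : resultant P H ≠ 0 := by
    intro h0
    have h1 : resultant (P.map (Int.castRingHom ℚ)) (H.map (Int.castRingHom ℚ)) = 0 := by
      have hinj : Function.Injective (Int.castRingHom ℚ) := RingHom.injective_int _
      have e1 : (P.map (Int.castRingHom ℚ)).natDegree = P.natDegree := natDegree_map_eq_of_injective hinj _
      have e2 : (H.map (Int.castRingHom ℚ)).natDegree = H.natDegree := natDegree_map_eq_of_injective hinj _
      rw [e1, e2, resultant_map_map, h0, map_zero]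
    rw [resultant_eq_zero_iff] at h1
    apply h1.2
    rw [hirrQ.coprime_iff_not_dvd]
    intro h2
    obtain ⟨c, hc⟩ : ∃ c : ℤ, c ≠ 0 ∧ P ∣ C c * H := by
      obtain ⟨Q, hQ⟩ := h2
      obtain ⟨b, hb⟩ := IsLocalization.exist_integer_multiples_of_finset (nonZeroDivisors ℤ)
        (Q.support.image Q.coeff)
      obtain ⟨b, hb0⟩ := b
      have hb0' : b ≠ 0 := nonZeroDivisors.ne_zero hb0
      obtain ⟨Q', hQ'⟩ : ∃ Q' : ℤ[X], Q'.map (Int.castRingHom ℚ) = C (b : ℚ) * Q := by
        rw [← Polynomial.mem_lifts, Polynomial.lifts_iff_coeff_lifts]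
        intro i
        rw [coeff_C_mul]
        by_cases hi : i ∈ Q.support
        · obtain ⟨z, hz⟩ := hb (Q.coeff i) (Finset.mem_image_of_mem _ hi)
          refine ⟨z, ?_⟩
          simpa [Algebra.smul_def] using hz
        · rw [notMem_support_iff] at hi
          exact ⟨0, by simp [hi]⟩
      refine ⟨b, hb0', Q', ?_⟩
      apply map_injective (Int.castRingHom ℚ) (RingHom.injective_int _)
      rw [Polynomial.map_mul, Polynomial.map_mul, hQ', hQ, map_C]
      have : (Int.castRingHom ℚ) b = (b : ℚ) := rfl
      rw [this]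
      ring
    have hprime : Prime P := hirr.prime
    rcases hprime.dvd_or_dvd hc.2 with h3 | h3
    · have := natDegree_le_of_dvd h3 (C_ne_zero.2 hc.1)
      rw [natDegree_C] at this
      omega
    · exact hndvd h3
  obtain ⟨U, V, hU, hV, hUV⟩ := exists_mul_add_mul_eq_C_resultant P H le_rfl le_rfl (Or.inl (by omega))
  obtain ⟨T, hT⟩ := hdvd
  have hkey : P * (X ^ N * U + T * V) = X ^ N * C (resultant P H) + G * V := by
    have : X ^ N * C (resultant P H) = X ^ N * (P * U + H * V) := by rw [hUV]
    rw [this]
    have h4 : P * T * V = (G + X ^ N * H) * V := by rw [← hT]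
    linear_combination h4
  have hVd : V.natDegree ≤ P.natDegree := by
    by_cases hV0 : V = 0
    · rw [hV0, natDegree_zero]
      omega
    · rw [degree_eq_natDegree hV0] at hV
      exact_mod_cast hV.le
  have hGV : (G * V).natDegree ≤ g + P.natDegree := natDegree_mul_le.trans (by omega)
  have hprim : ∀ p : ℕ, p.Prime → P.map (Int.castRingHom (ZMod p)) ≠ 0 := by
    intro p hp h0
    have h5 : C (p : ℤ) ∣ P := by
      rw [C_dvd_iff_dvd_coeff]
      intro i
      have := congrArg (fun q => q.coeff i) h0
      simp only [coeff_map, coeff_zero] at this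
      exact (ZMod.intCast_zmod_eq_zero_iff_dvd _ _).1 this
    have h6 := hprimitive _ h5
    rw [Int.isUnit_iff_natAbs_eq] at h6
    exact hp.one_lt.ne' (by simpa using h6)
  have := descent P hprim hlc _ _ hres (resultant_lt P H ℓ s hPl hHl hs) _ _ N _ hkey hGV
  omega

end Pool.Agent.V7H9.ML
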